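import Pool.Agent.R140.JBS
import Pool.Agent.R140.Miss

set_option autoImplicit false

/-!
# MP_94a3a7_co, Q2: `K(i, d-1)` is determined by its `g`-numbers in `S(i, d-1)`

For all `i, d ≥ 1`, every `Δ ∈ S(i, d-1)` with `g_j(Δ) = g_j(K(i, d-1))` for all `0 ≤ j ≤ ⌊d/2⌋` is
isomorphic to `K(i, d-1)`.  (The hypothesis of Q2, that the inequality of Q1 holds for the pair
`(i, d)`, is not needed.)
-/

open Finset

namespace Pool.Agent.Results.MP_94a3a7_co.UniqueMinimizer

open Pool.Agent.R140.Sph

/-! ### The complexes `K(i, d-1)` -/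

/-- The `j`-th block: the `q` blocks `j < q` have `i + 1` elements, the block `j = q` has `r + 1`
elements, and the blocks follow each other in `ℕ`. -/
def block (i q r j : ℕ) : Finset ℕ :=
  if j < q then Ico (j * (i + 1)) (j * (i + 1) + (i + 1)) else Ico (j * (i + 1)) (j * (i + 1) + (r + 1))

/-- The blocks `j = 0, …, q`. -/
def blocks (i q r : ℕ) : Finset (Finset ℕ) := (range (q + 1)).image (block i q r)

lemma block_card (i q r j : ℕ) : (block i q r j).card = if j < q then i + 1 else r + 1 := by
  unfold block
  split_ifs <;> simp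

lemma empty_notMem (i q r : ℕ) : ∅ ∉ blocks i q r := by
  intro h
  obtain ⟨j, _, hj⟩ := Finset.mem_image.1 h
  have h1 := block_card i q r j
  rw [hj, Finset.card_empty] at h1
  split_ifs at h1 <;> omega

/-- The complex `K(i, d-1)` for `d = q i + r`, `1 ≤ r ≤ i`: the join of `q` copies of the boundary
complex of the `i`-simplex and the boundary complex of the `r`-simplex.  Its faces are the subsets
of the union of the blocks which contain no block. -/
def K (i q r : ℕ) : Cplx := joinBdry (blocks i q r) (empty_notMem i q r)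

lemma block_disj {i q r j j' : ℕ} (hri : r ≤ i) (h : j < j') :
    Disjoint (block i q r j) (block i q r j') := by
  rw [Finset.disjoint_left]
  intro x hx hx'
  have h1 : x < j * (i + 1) + (i + 1) := by
    unfold block at hx
    split_ifs at hx <;> rw [Finset.mem_Ico] at hx <;> omega
  have h2 : j' * (i + 1) ≤ x := by
    unfold block at hx'
    split_ifs at hx' <;> rw [Finset.mem_Ico] at hx' <;> omega
  have h3 : (j + 1) * (i + 1) ≤ j' * (i + 1) := Nat.mul_le_mul_right _ h
  have h4 : (j + 1) * (i + 1) = j * (i + 1) + (i + 1) := by ring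
  omega

lemma block_nonempty (i q r j : ℕ) : (block i q r j).Nonempty := by
  rw [← Finset.card_pos, block_card]
  split_ifs <;> omega

lemma block_inj {i q r : ℕ} (hri : r ≤ i) : Function.Injective (block i q r) := by
  intro j j' h
  by_contra hne
  rcases Nat.lt_or_gt_of_ne hne with hlt | hlt
  · have h1 := block_disj (q := q) hri hlt
    rw [h, disjoint_self] at h1
    exact (block_nonempty i q r j').ne_empty h1
  · have h1 := block_disj (q := q) hri hlt
    rw [h, disjoint_self] at h1
    exact (block_nonempty i q r j').ne_empty h1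

lemma blocks_disj {i q r : ℕ} (hri : r ≤ i) :
    (blocks i q r : Set (Finset ℕ)).PairwiseDisjoint id := by
  intro B hB B' hB' hne
  obtain ⟨j, _, rfl⟩ := Finset.mem_image.1 (Finset.mem_coe.1 hB)
  obtain ⟨j', _, rfl⟩ := Finset.mem_image.1 (Finset.mem_coe.1 hB')
  have hjj : j ≠ j' := fun h => hne (by rw [h])
  rcases Nat.lt_or_gt_of_ne hjj with hlt | hlt
  · exact block_disj hri hlt
  · exact (block_disj hri hlt).symm

lemma blocks_card {i q r : ℕ} (hri : r ≤ i) : (blocks i q r).card = q + 1 := by
  unfold blocks
  rw [Finset.card_image_of_injective _ (block_inj hri), Finset.card_range]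

lemma blocks_sum {i q r : ℕ} (hri : r ≤ i) :
    ∑ B ∈ blocks i q r, B.card = (q * i + r) + (blocks i q r).card := by
  rw [blocks_card hri]
  unfold blocks
  rw [Finset.sum_image (fun a _ b _ h => block_inj hri h)]
  simp only [block_card]
  rw [Finset.sum_range_succ, if_neg (lt_irrefl q)]
  rw [Finset.sum_congr rfl (g := fun _ => i + 1)
    (fun j hj => if_pos (Finset.mem_range.1 hj)), Finset.sum_const, Finset.card_range, smul_eq_mul]
  ring

/-- **Q2, answered positively.**  Let `d = q i + r` with `1 ≤ r ≤ i`.  Every `X ∈ S(i, d-1)` with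
`g_j(X) = g_j(K(i, d-1))` for all `0 ≤ j ≤ ⌊d/2⌋` is isomorphic to `K(i, d-1)`. -/
theorem result (i q r : ℕ) (hr : 1 ≤ r) (hri : r ≤ i) (X : Cplx) (hX : InS i (q * i + r) X)
    (hg : ∀ j ≤ (q * i + r) / 2,
      gNum (q * i + r) X.faces j = gNum (q * i + r) (K i q r).faces j) :
    Iso X (K i q r) := by
  have hcard : ∀ B ∈ blocks i q r, B.card = i + 1 ∨ (B = block i q r q ∧ B.card = r + 1) := by
    intro B hB
    obtain ⟨j, hj, rfl⟩ := Finset.mem_image.1 hB
    rw [Finset.mem_range] at hj
    rcases Nat.lt_or_ge j q with h | h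
    · left
      rw [block_card, if_pos h]
    · right
      obtain rfl : j = q := by omega
      exact ⟨rfl, by rw [block_card, if_neg (lt_irrefl _)]⟩
  refine unique_jb (blocks i q r) (empty_notMem i q r) (blocks_disj hri) ?_ (q * i + r) i
    (blocks_sum hri) ?_ ?_ hX.1.1.1 (dehnSommerville (eulerian_of_sphere hX.1)) hX.2 hg
  · intro B hB
    rcases hcard B hB with h | h <;> omega
  · intro B hB
    rcases hcard B hB with h | h <;> omega
  · intro B hB B' hB' h1 h2
    rcases hcard B hB with h | h
    · omega
    · rcases hcard B' hB' with h' | h'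
      · omega
      · rw [h.1, h'.1]

end Pool.Agent.Results.MP_94a3a7_co.UniqueMinimizer
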